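import Pool.Agent.H88.CR.Targets
import Pool.Agent.H85.JNBasic

/-!
EXT: spreading models of `c_0` give `ℓ_∞^n` uniformly (MP_479f73_an).
-/

set_option autoImplicit false

open Filter Topology Set Pool.Agent.H85.WMP Pool.Agent.H88.WR Pool.Agent.H88.CR

namespace Pool.Agent.H40.CR

section

variable {𝕜 : Type} [RCLike 𝕜] {F : Type} [NormedAddCommGroup F] [NormedSpace 𝕜 F]

/-- the sequence is weakly null -/
lemma wnull (y : ℕ → F) (K : ℝ)
    (hK : ∀ (n : ℕ) (s : Finset ℕ) (a : ℕ → 𝕜), (∀ i ∈ s, n ≤ i) → s.card ≤ n →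
      (∀ i, ‖a i‖ ≤ 1) → ‖∑ i ∈ s, a i • y i‖ ≤ K)
    (g : StrongDual 𝕜 F) (η : ℝ) (hη : 0 < η) : ∀ᶠ k in atTop, ‖g (y k)‖ ≤ η := by
  by_contra hcon
  have hfr : ∃ᶠ k in atTop, η < ‖g (y k)‖ := by
    intro h
    apply hcon
    filter_upwards [h] with k hk
    exact not_lt.1 hk
  have hinf : {k | η < ‖g (y k)‖}.Infinite := Nat.frequently_atTop_iff_infinite.1 hfr
  have hchoice : ∀ i, ∃ c : 𝕜, ‖c‖ = 1 ∧ ((‖g (y i)‖ : ℝ) : 𝕜) = c * g (y i) := fun i =>
    RCLike.exists_norm_eq_mul_self _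
  choose c hc1 hc2 using hchoice
  have hall : ∀ n : ℕ, n * η ≤ ‖g‖ * K := by
    intro n
    have hinf2 : ({k | η < ‖g (y k)‖} \ (Finset.range n : Set ℕ)).Infinite :=
      hinf.sdiff (Finset.finite_toSet _)
    obtain ⟨s, hs, hcard⟩ := hinf2.exists_subset_card_eq n
    have hsn : ∀ i ∈ s, n ≤ i := by
      intro i hi
      have := (hs hi).2
      simpa using this
    have hsη : ∀ i ∈ s, η < ‖g (y i)‖ := fun i hi => (hs hi).1
    have h1 := hK n s c hsn hcard.le (fun i => (hc1 i).le)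
    have h2 : g (∑ i ∈ s, c i • y i) = ((∑ i ∈ s, ‖g (y i)‖ : ℝ) : 𝕜) := by
      rw [map_sum, RCLike.ofReal_sum]
      refine Finset.sum_congr rfl fun i _ => ?_
      rw [map_smul, smul_eq_mul, hc2]
    have h3 : ‖g (∑ i ∈ s, c i • y i)‖ = ∑ i ∈ s, ‖g (y i)‖ := by
      rw [h2, RCLike.norm_ofReal, abs_of_nonneg]
      exact Finset.sum_nonneg fun i _ => norm_nonneg _
    have h4 : ‖g (∑ i ∈ s, c i • y i)‖ ≤ ‖g‖ * ‖∑ i ∈ s, c i • y i‖ := g.le_opNorm _
    have h5 : (n : ℝ) * η ≤ ∑ i ∈ s, ‖g (y i)‖ := by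
      have := Finset.card_nsmul_le_sum s (fun i => ‖g (y i)‖) η (fun i hi => (hsη i hi).le)
      rwa [hcard, nsmul_eq_mul] at this
    have h6 : ‖g‖ * ‖∑ i ∈ s, c i • y i‖ ≤ ‖g‖ * K :=
      mul_le_mul_of_nonneg_left h1 (norm_nonneg _)
    linarith
  obtain ⟨n, hn⟩ := exists_nat_gt (‖g‖ * K / η)
  have h1 := hall n
  rw [div_lt_iff₀ hη] at hn
  linarith

/-- almost biorthogonal subsequences -/
lemma subseq (y : ℕ → F) (K : ℝ)
    (hK : ∀ (n : ℕ) (s : Finset ℕ) (a : ℕ → 𝕜), (∀ i ∈ s, n ≤ i) → s.card ≤ n →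
      (∀ i, ‖a i‖ ≤ 1) → ‖∑ i ∈ s, a i • y i‖ ≤ K)
    (f : ℕ → StrongDual 𝕜 F) (hf : ∀ i, ‖f i‖ ≤ 1) (n : ℕ) (η : ℝ) (hη : 0 < η) :
    ∃ j : ℕ → ℕ, StrictMono j ∧ (∀ i, n ≤ j i) ∧
      ∀ i l, i ≠ l → ‖f (j i) (y (j l))‖ ≤ η := by
  obtain ⟨g, hg⟩ := Pool.Agent.H85.JN.exists_ultra_limit (hyperfilter ℕ) f 1 hf
  have hhyp : ∀ p : ℕ → Prop, (∀ᶠ k in atTop, p k) → ∀ᶠ k in (hyperfilter ℕ : Filter ℕ), p k := by
    intro p hp
    have h1 : (hyperfilter ℕ : Filter ℕ) ≤ atTop := by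
      rw [← Nat.cofinite_eq_atTop]
      exact hyperfilter_le_cofinite
    exact h1 hp
  obtain ⟨j, hj1, hj2⟩ := exists_seq_of_forall_finset_exists
    (fun k : ℕ => n ≤ k ∧ ‖g (y k)‖ ≤ η / 2)
    (fun l k : ℕ => l < k ∧ ‖f l (y k)‖ ≤ η ∧ ‖f k (y l) - g (y l)‖ ≤ η / 2) (by
      intro s _
      have e1 : ∀ᶠ k in (hyperfilter ℕ : Filter ℕ), n ≤ k := hhyp _ (eventually_ge_atTop n)
      have e2 : ∀ᶠ k in (hyperfilter ℕ : Filter ℕ), ‖g (y k)‖ ≤ η / 2 :=
        hhyp _ (wnull y K hK g (η / 2) (by positivity))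
      have e3 : ∀ᶠ k in (hyperfilter ℕ : Filter ℕ), ∀ l ∈ s, l < k ∧ ‖f l (y k)‖ ≤ η ∧
          ‖f k (y l) - g (y l)‖ ≤ η / 2 := by
        rw [Filter.eventually_all_finset]
        intro l _
        have e4 : ∀ᶠ k in (hyperfilter ℕ : Filter ℕ), l < k := hhyp _ (eventually_gt_atTop l)
        have e5 : ∀ᶠ k in (hyperfilter ℕ : Filter ℕ), ‖f l (y k)‖ ≤ η :=
          hhyp _ (wnull y K hK (f l) η hη)
        have e6 : ∀ᶠ k in (hyperfilter ℕ : Filter ℕ), ‖f k (y l) - g (y l)‖ ≤ η / 2 := by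
          have h7 := (hg (y l)).eventually (Metric.closedBall_mem_nhds (g (y l))
            (by positivity : 0 < η / 2))
          filter_upwards [h7] with k hk
          simpa [dist_eq_norm] using hk
        filter_upwards [e4, e5, e6] with k h4 h5 h6
        exact ⟨h4, h5, h6⟩
      obtain ⟨k, hk⟩ := (e1.and (e2.and e3)).exists
      exact ⟨k, ⟨hk.1, hk.2.1⟩, hk.2.2⟩)
  refine ⟨j, fun a b hab => (hj2 a b hab).1, fun i => (hj1 i).1, ?_⟩
  intro i l hil
  rcases lt_or_gt_of_ne hil with h | h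
  · exact (hj2 i l h).2.1
  · have h1 := (hj2 l i h).2.2
    have h2 := (hj1 l).2
    calc ‖f (j i) (y (j l))‖ = ‖(f (j i) (y (j l)) - g (y (j l))) + g (y (j l))‖ := by
          rw [sub_add_cancel]
      _ ≤ ‖f (j i) (y (j l)) - g (y (j l))‖ + ‖g (y (j l))‖ := norm_add_le _ _
      _ ≤ η / 2 + η / 2 := add_le_add h1 h2
      _ = η := by ring

end

theorem pf_EXT (𝕜 : Type) [RCLike 𝕜] : T_EXT 𝕜 := by
  intro F _ _ hC
  obtain ⟨y, δ, K, hδ, hy, hK⟩ := hC
  have hf : ∀ i, ∃ g : StrongDual 𝕜 F, ‖g‖ ≤ 1 ∧ g (y i) = (‖y i‖ : 𝕜) := fun i =>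
    exists_dual_vector'' 𝕜 (y i)
  choose f hf1 hf2 using hf
  refine ⟨δ / 2, K, by positivity, fun n => ?_⟩
  obtain ⟨j, hj, hjn, hjo⟩ := subseq y K hK f hf1 n (δ / (2 * (n + 1))) (by positivity)
  refine ⟨fun l => y (j l), fun a B hB haB => ⟨?_, ?_⟩⟩
  · rcases hB.eq_or_lt with h0 | h0
    · have ha0 : ∀ i, a i = 0 := by
        intro i
        have := haB i
        rw [← h0] at this
        exact norm_le_zero_iff.1 this
      simp [ha0, ← h0]
    · let em : Fin n ↪ ℕ := ⟨fun l => j l, fun l l' h => by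
        have := hj.injective h
        exact Fin.ext this⟩
      have hem : ∀ l, em l = j l := fun l => rfl
      let b : ℕ → 𝕜 := Function.extend em (fun l => ((B⁻¹ : ℝ) : 𝕜) * a l) 0
      have hbl : ∀ l, b (em l) = ((B⁻¹ : ℝ) : 𝕜) * a l := fun l =>
        em.injective.extend_apply _ _ _
      have hb : ∀ i, ‖b i‖ ≤ 1 := by
        intro i
        by_cases hi : ∃ l, em l = i
        · obtain ⟨l, rfl⟩ := hi
          rw [hbl, norm_mul, RCLike.norm_ofReal, abs_of_pos (by positivity)]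
          have h1 := haB l
          rw [inv_mul_le_iff₀ h0]
          linarith
        · have : b i = 0 := Function.extend_apply' _ _ _ hi
          rw [this]
          simp
      have h1 := hK n (Finset.univ.map em) b (by
        intro i hi
        rw [Finset.mem_map] at hi
        obtain ⟨l, -, rfl⟩ := hi
        exact hjn l) (by simp) hb
      rw [Finset.sum_map] at h1
      have h2 : ∑ l, a l • y (j l) = ((B : ℝ) : 𝕜) • ∑ l, b (em l) • y (em l) := by
        rw [Finset.smul_sum]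
        refine Finset.sum_congr rfl fun l _ => ?_
        rw [hbl, smul_smul, ← mul_assoc, ← RCLike.ofReal_mul, mul_inv_cancel₀ h0.ne',
          RCLike.ofReal_one, one_mul]
        rfl
      rw [h2, norm_smul, RCLike.norm_ofReal, abs_of_pos h0, mul_comm]
      exact mul_le_mul_of_nonneg_right h1 hB
  · intro i'
    have : Nonempty (Fin n) := ⟨i'⟩
    obtain ⟨i, hi⟩ := Finite.exists_max (fun l => ‖a l‖)
    have h1 : f (j i) (∑ l, a l • y (j l)) = a i * (‖y (j i)‖ : 𝕜) +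
        ∑ l ∈ Finset.univ.erase i, a l * f (j i) (y (j l)) := by
      rw [map_sum, ← Finset.add_sum_erase _ _ (Finset.mem_univ i), map_smul, smul_eq_mul, hf2]
      congr 1
      refine Finset.sum_congr rfl fun l _ => ?_
      rw [map_smul, smul_eq_mul]
    have h2 : ‖∑ l ∈ Finset.univ.erase i, a l * f (j i) (y (j l))‖ ≤ (δ / 2) * ‖a i‖ := by
      calc ‖∑ l ∈ Finset.univ.erase i, a l * f (j i) (y (j l))‖
          ≤ ∑ l ∈ Finset.univ.erase i, ‖a l * f (j i) (y (j l))‖ := norm_sum_le _ _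
        _ ≤ ∑ l ∈ Finset.univ.erase i, ‖a i‖ * (δ / (2 * (n + 1))) := by
            refine Finset.sum_le_sum fun l hl => ?_
            rw [norm_mul]
            have hne : (i : ℕ) ≠ (l : ℕ) := fun h => (Finset.ne_of_mem_erase hl) (Fin.ext h.symm)
            exact mul_le_mul (hi l) (hjo i l hne) (norm_nonneg _) (norm_nonneg _)
        _ = ((Finset.univ.erase i).card : ℝ) * (‖a i‖ * (δ / (2 * (n + 1)))) := by
            rw [Finset.sum_const, nsmul_eq_mul]
        _ ≤ ((n : ℝ) + 1) * (‖a i‖ * (δ / (2 * (n + 1)))) := by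
            refine mul_le_mul_of_nonneg_right ?_ (by positivity)
            have : ((Finset.univ.erase i).card : ℝ) ≤ n := by
              have h3 := Finset.card_erase_le (s := (Finset.univ : Finset (Fin n))) (a := i)
              rw [Finset.card_univ, Fintype.card_fin] at h3
              exact_mod_cast h3
            linarith
        _ = (δ / 2) * ‖a i‖ := by
            have : (n : ℝ) + 1 ≠ 0 := by positivity
            field_simp
    have h3 : ‖f (j i) (∑ l, a l • y (j l))‖ ≤ ‖∑ l, a l • y (j l)‖ := by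
      calc ‖f (j i) (∑ l, a l • y (j l))‖ ≤ ‖f (j i)‖ * ‖∑ l, a l • y (j l)‖ :=
            (f (j i)).le_opNorm _
        _ ≤ 1 * ‖∑ l, a l • y (j l)‖ :=
            mul_le_mul_of_nonneg_right (hf1 _) (norm_nonneg _)
        _ = _ := one_mul _
    have h4 : ‖a i‖ * δ ≤ ‖a i * ((‖y (j i)‖ : ℝ) : 𝕜)‖ := by
      rw [norm_mul, RCLike.norm_ofReal, abs_of_nonneg (norm_nonneg _)]
      exact mul_le_mul_of_nonneg_left (hy _) (norm_nonneg _)
    have h5 : ‖a i * ((‖y (j i)‖ : ℝ) : 𝕜)‖ ≤ ‖f (j i) (∑ l, a l • y (j l))‖ +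
        ‖∑ l ∈ Finset.univ.erase i, a l * f (j i) (y (j l))‖ := by
      rw [h1]
      have := norm_sub_le (a i * (‖y (j i)‖ : 𝕜) +
        ∑ l ∈ Finset.univ.erase i, a l * f (j i) (y (j l)))
        (∑ l ∈ Finset.univ.erase i, a l * f (j i) (y (j l)))
      rwa [add_sub_cancel_right] at this
    have h6 : ‖a i'‖ ≤ ‖a i‖ := hi i'
    have h7 : (δ / 2) * ‖a i'‖ ≤ (δ / 2) * ‖a i‖ := mul_le_mul_of_nonneg_left h6 (by positivity)
    linarith

end Pool.Agent.H40.CR
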