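import Pool.Agent.H88.CR.Targets

/-!
UCB: the new norm is uniformly convex (MP_479f73_an).
-/

set_option autoImplicit false

open Filter Topology Set Pool.Agent.H85.WMP Pool.Agent.H88.WR Pool.Agent.H88.CR

namespace Pool.Agent.H40.CR

theorem pf_UCB (𝕜 : Type) [RCLike 𝕜] (hDFE : T_DFE 𝕜) : T_UCB 𝕜 := by
  intro F _ _ F' _ _ e φ c ε κ M hS hU
  obtain ⟨h1, h2⟩ := hDFE F F' e φ c ε κ M hS
  have ha : 0 < κ * ε := mul_pos hS.κ0 hS.ε0
  set a : ℝ := κ * ε with hadef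
  set L : ℝ := ‖(e.symm : F →L[𝕜] F')‖ + 1 with hL
  have hL0 : 0 < L := by positivity
  have hLe : ∀ y : F', ‖y‖ ≤ L * ‖e y‖ := by
    intro y
    have h3 : ‖(e.symm : F →L[𝕜] F') (e y)‖ ≤ ‖(e.symm : F →L[𝕜] F')‖ * ‖e y‖ :=
      ContinuousLinearMap.le_opNorm _ _
    have h4 : (e.symm : F →L[𝕜] F') (e y) = y := by simp
    rw [h4] at h3
    have h5 : 0 ≤ ‖e y‖ := norm_nonneg _
    rw [hL]
    nlinarith
  constructor
  intro ε0 hε0
  obtain ⟨δ', hδ', hU'⟩ := hU (1 / a) (ε0 / L) (by positivity)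
  refine ⟨min 1 (a ^ 2 * δ' / 4), by positivity, ?_⟩
  intro x hx y hy hxy
  have hex : ∀ z : F', ‖z‖ = 1 → ‖e z‖ ≤ 1 / a := by
    intro z hz
    rw [le_div_iff₀ ha]
    have := h1 z
    rw [hz] at this
    linarith
  have h6 : ε0 / L ≤ ‖e x - e y‖ := by
    rw [div_le_iff₀ hL0]
    have h7 := hLe (x - y)
    rw [map_sub] at h7
    linarith
  have h8 : δ' ≤ Df (e x) (e y) := by
    by_contra hcon
    push Not at hcon
    have := hU' (e x) (e y) (hex x hx) (hex y hy) hcon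
    linarith
  have h9 := h2 x y hx.le hy.le
  have h10 : a ^ 2 * δ' ≤ a ^ 2 * Df (e x) (e y) := by
    have : 0 ≤ a ^ 2 := by positivity
    exact mul_le_mul_of_nonneg_left h8 this
  have h11 : min 1 (a ^ 2 * δ' / 4) ≤ 1 := min_le_left _ _
  have h12 : min 1 (a ^ 2 * δ' / 4) ≤ a ^ 2 * δ' / 4 := min_le_right _ _
  set d := min 1 (a ^ 2 * δ' / 4) with hd
  have h13 : ‖x + y‖ ^ 2 ≤ (2 - d) ^ 2 := by nlinarith [sq_nonneg d]
  exact abs_le_of_sq_le_sq' h13 (by linarith) |>.2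

end Pool.Agent.H40.CR
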